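import Pool.Agent.H573Z.SN.Defs
import Pool.Agent.H573Z.SN.Main

open MeasureTheory
open Pool.Agent.H573Z.SN

namespace Pool.Agent.Results.MP_0c7e55_an.ANoPair

/-- For every shift-invariant probability measure `μ` of positive entropy on sequences over a
finite or countable alphabet and every infinite non-deterministic set `S`, some `μ`-generic
sequence `x` has `x|_S` not simply `μ`-normal. -/
theorem result {Λ : Type} [Countable Λ] [MeasurableSpace Λ] [DiscreteMeasurableSpace Λ]
    (μ : Measure (ℕ → Λ)) [IsProbabilityMeasure μ] (hinv : MeasurePreserving shift μ μ)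
    (hpos : 0 < ksEntropy μ shift) (S : Set ℕ) (hS : S.Infinite) (hnd : ¬ Deterministic S) :
    ∃ x : ℕ → Λ, Generic μ x ∧ ¬ SimplyNormal μ (restrictTo x S) := by
  by_contra h
  exact main μ hinv hpos S hS hnd fun x hx => by_contra fun hn => h ⟨x, hx, hn⟩

end Pool.Agent.Results.MP_0c7e55_an.ANoPair
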